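import Pool.Agent.H986R2.K4.All
import Pool.Agent.U4.JD.FinD
import Pool.Agent.U4.JD.Fwd

/-!
# Zeros of the derivatives of the Riemann xi function up to height `exp (κ n)`, and the constant 4

For every `κ < 4` all zeros of `ξ^(n)` with `|Im s| ≤ exp (κ n)` are simple and on the critical line
(for all large `n`), unconditionally.  The constant `4` can be improved if and only if zeta has a
zero-free half-plane `Re s ≥ σ₀`, `σ₀ < 1`; this remains so if only `Re s = 1/2` is asked for.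

More generally, for `1/2 ≤ θ ≤ 1` zeta has only finitely many zeros in each half-plane `Re s ≥ θ + ε`
if and only if all zeros of `ξ^(n)` with `|Im s| ≤ exp (κ n)` are on the critical line (`n` large) for
every `κ < 2 / (θ - 1/2)`, and the order of zeta vanishes to the right of `θ` (for `θ = 1/2` this is the
Lindelof hypothesis).

The first two parts are from the starting modules `Pool.Agent.H986R2.K4` (a finished development whose
hand-in was missing); the exact criterion is new (modules `Pool.Agent.U4.JD`).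
-/

set_option autoImplicit false

namespace Pool.Agent.Results.MP_5a4862_nt.DerivativesFour


/-- The Riemann xi function `s (s - 1) π^(-s/2) Γ(s/2) ζ(s) / 2`, as an entire function. -/
noncomputable def xi (s : ℂ) : ℂ := s * (s - 1) / 2 * completedRiemannZeta₀ s + 1 / 2

/-- For all large `n` every zero of `ξ^(n)` with `|Im s| ≤ exp (κ n)` is on the critical line. -/
def Line (κ : ℝ) : Prop := ∃ N : ℕ, ∀ n : ℕ, N ≤ n → ∀ s : ℂ, iteratedDeriv n xi s = 0 →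
  |s.im| ≤ Real.exp (κ * n) → s.re = 1 / 2

/-- For all large `n` every zero of `ξ^(n)` with `|Im s| ≤ exp (κ n)` is on the critical line and
simple. -/
def SimpleLine (κ : ℝ) : Prop := ∃ N : ℕ, ∀ n : ℕ, N ≤ n → ∀ s : ℂ, iteratedDeriv n xi s = 0 →
  |s.im| ≤ Real.exp (κ * n) → s.re = 1 / 2 ∧ iteratedDeriv (n + 1) xi s ≠ 0

/-- Only finitely many zeros of zeta in each half-plane `Re s ≥ θ + ε`. -/
def FewZeros (θ : ℝ) : Prop := ∀ ε : ℝ, 0 < ε → {s : ℂ | riemannZeta s = 0 ∧ θ + ε ≤ s.re}.Finite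

/-- The order of zeta vanishes to the right of `θ`: `ζ(σ + it) = O(t^ε)` for all `σ > θ`, `ε > 0`. For
`θ = 1/2` this is the Lindelof hypothesis. -/
def OrderZero (θ : ℝ) : Prop := ∀ σ ε : ℝ, θ < σ → 0 < ε → ∃ C : ℝ, ∀ t : ℝ, 1 ≤ t →
  ‖riemannZeta ((σ : ℂ) + t * Complex.I)‖ ≤ C * t ^ ε

/-- the exact criterion -/
theorem exact (θ : ℝ) (h1 : 1 / 2 ≤ θ) (h2 : θ ≤ 1) : List.TFAE [
      FewZeros θ,
      OrderZero θ ∧ ∀ κ : ℝ, 0 < κ → κ * (θ - 1 / 2) < 2 → SimpleLine κ,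
      OrderZero θ ∧ ∀ κ : ℝ, 0 < κ → κ * (θ - 1 / 2) < 2 → Line κ] := by
  have hX : ∀ κ : ℝ, SimpleLine κ ↔ Pool.Agent.H986R2.K4.UpTo κ := Pool.Agent.H986R2.K4.xiE.1
  have eθ : 1 / 2 + (θ - 1 / 2) = θ := by ring
  tfae_have 1 → 2 := by
    intro h
    have hZ : Pool.Agent.H986R2.K4.ZB (θ - 1 / 2) :=
      Pool.Agent.U4.JD.zb_of_edge (by linarith) (by rw [eθ]; exact h)
    have hL := Pool.Agent.U4.JD.lind_of_zb hZ
    rw [eθ] at hL
    exact ⟨hL, fun κ _ hκ => (hX κ).2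
      (Pool.Agent.H986R2.K4.fwdT (θ - 1 / 2) κ (by linarith) (by linarith) hZ hκ)⟩
  tfae_have 2 → 3 := by
    rintro ⟨hL, h⟩
    refine ⟨hL, fun κ h0 hκ => ?_⟩
    obtain ⟨N, hN⟩ := h κ h0 hκ
    exact ⟨N, fun n hn s hs him => (hN n hn s hs him).1⟩
  tfae_have 3 → 1 := by
    rintro ⟨hL, h⟩
    have h3 : Pool.Agent.U4.JD.Edge (1 / 2 + (θ - 1 / 2)) := by
      refine Pool.Agent.U4.JD.edge_of (by linarith) fun δ hδ => ?_
      refine Pool.Agent.U4.JD.dconvG (θ - 1 / 2) (by linarith) (by rw [eθ]; exact hL) ?_ δ hδ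
      intro κ h0 hκ
      obtain ⟨N, hN⟩ := h κ h0 hκ
      refine ⟨N, fun n hn s hs him => ?_⟩
      have h0 : iteratedDeriv n xi (s + 1 / 2) = 0 := by
        have := (Pool.Agent.H986R2.K4.xiE.2 n (s + 1 / 2)).2 (by simpa using hs)
        exact this
      have h1 := hN n hn (s + 1 / 2) h0 (by simpa using him)
      simpa using h1
    rw [eθ] at h3
    exact h3
  tfae_finish

/-- **The horizon of the differentiated xi function.** -/
theorem result :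
    (∀ κ : ℝ, κ < 4 → SimpleLine κ) ∧
    (∀ σ₀ : ℝ, 1 / 2 < σ₀ → σ₀ < 1 → (∀ s : ℂ, σ₀ ≤ s.re → riemannZeta s ≠ 0) →
      ∀ κ : ℝ, κ < 2 / (σ₀ - 1 / 2) → SimpleLine κ) ∧
    List.TFAE [
      ∃ σ₀ : ℝ, 1 / 2 < σ₀ ∧ σ₀ < 1 ∧ ∀ s : ℂ, σ₀ ≤ s.re → riemannZeta s ≠ 0,
      ∃ κ : ℝ, 4 < κ ∧ SimpleLine κ,
      ∃ κ : ℝ, 4 < κ ∧ Line κ] ∧
    (∀ θ : ℝ, 1 / 2 ≤ θ → θ ≤ 1 → List.TFAE [
      FewZeros θ,
      OrderZero θ ∧ ∀ κ : ℝ, 0 < κ → κ * (θ - 1 / 2) < 2 → SimpleLine κ,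
      OrderZero θ ∧ ∀ κ : ℝ, 0 < κ → κ * (θ - 1 / 2) < 2 → Line κ]) := by
  have hX : ∀ κ : ℝ, SimpleLine κ ↔ Pool.Agent.H986R2.K4.UpTo κ := Pool.Agent.H986R2.K4.xiE.1
  have h2 : ∀ σ₀ : ℝ, 1 / 2 < σ₀ → σ₀ < 1 → (∀ s : ℂ, σ₀ ≤ s.re → riemannZeta s ≠ 0) →
      ∀ κ : ℝ, κ < 2 / (σ₀ - 1 / 2) → SimpleLine κ := by
    intro σ₀ h1 h2 h3 κ hκ
    have hpos : 0 < σ₀ - 1 / 2 := by linarith
    have hZ : Pool.Agent.H986R2.K4.ZB (σ₀ - 1 / 2) := by
      refine Pool.Agent.H986R2.K4.a2 Pool.Agent.H986R2.K4.sab Pool.Agent.H986R2.K4.a1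
        (σ₀ - 1 / 2) (by linarith) (by linarith) fun s hs => h3 s (by linarith)
    exact (hX κ).2 (Pool.Agent.H986R2.K4.fwdT (σ₀ - 1 / 2) κ (by linarith) (by linarith) hZ
      (by rwa [lt_div_iff₀ hpos] at hκ))
  refine ⟨fun κ hκ => (hX κ).2 (Pool.Agent.H986R2.K4.fwdT (1 / 2) κ (by norm_num) le_rfl
    Pool.Agent.H986R2.K4.a1 (by linarith)), h2, ?_, exact⟩
  tfae_have 1 → 2 := by
    rintro ⟨σ₀, h3, h4, h5⟩
    have hpos : 0 < σ₀ - 1 / 2 := by linarith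
    have h6 : 4 < 2 / (σ₀ - 1 / 2) := by rw [lt_div_iff₀ hpos]; linarith
    exact ⟨(4 + 2 / (σ₀ - 1 / 2)) / 2, by linarith, h2 σ₀ h3 h4 h5 _ (by linarith)⟩
  tfae_have 2 → 3 := by
    rintro ⟨κ, hκ, N, hN⟩
    exact ⟨κ, hκ, N, fun n hn s hs him => (hN n hn s hs him).1⟩
  tfae_have 3 → 1 := by
    rintro ⟨κ, hκ, N, hN⟩
    obtain ⟨y, hy, hz⟩ := Pool.Agent.H986R2.K4.convT κ hκ ⟨N, fun n hn s hs him => by
      have h0 : iteratedDeriv n xi (s + 1 / 2) = 0 := by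
        have := (Pool.Agent.H986R2.K4.xiE.2 n (s + 1 / 2)).2 (by simpa using hs)
        exact this
      have h1 := hN n hn (s + 1 / 2) h0 (by simpa using him)
      simpa using h1⟩
    refine ⟨(max (1 / 2) (1 / 2 + y) + 1) / 2, ?_, ?_, fun s hs => hz s ?_⟩
    · have := le_max_left (1 / 2 : ℝ) (1 / 2 + y)
      linarith
    · have : max (1 / 2 : ℝ) (1 / 2 + y) < 1 := max_lt (by norm_num) (by linarith)
      linarith
    · have h3 : 1 / 2 + y ≤ max (1 / 2 : ℝ) (1 / 2 + y) := le_max_right _ _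
      have h4 : max (1 / 2 : ℝ) (1 / 2 + y) < 1 := max_lt (by norm_num) (by linarith)
      linarith
  tfae_finish

end Pool.Agent.Results.MP_5a4862_nt.DerivativesFour
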