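import Pool.Agent.U762.DX.Fin

/-!
# The zeros of the derivatives of the Riemann xi function beyond the height `exp (4 n)`

For every `κ < 4` and all large `n` all zeros of `ξ^(n)` up to height `exp (κ n)` are simple and on the
critical line, and `4` can be improved if and only if zeta has a zero-free half-plane `Re s ≥ σ`, `σ < 1`
(`DerivativesFour`).  Here the exceptional zeros beyond `exp (4 n)` are counted.  Their number up to height
`exp (κ n)` is at most `exp ((κ - 16/κ + ε) n)`, unconditionally; it is, up to a factor `C n²`, at most the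
number of distinct zeros of zeta with `Re s ≥ σ`, `|Im s| ≤ 2 exp (κ n)`, for each `σ < 1` with
`κ (σ - 1/2) < 2`; and conversely, for every `κ > 4` there is `σ < 1` such that bounds for the number of
off-line zeros of `ξ^(n)` up to height `exp (κ n)` give bounds for the number of zeros of zeta with
`Re s ≥ σ`.
-/

set_option autoImplicit false

open Filter

namespace Pool.Agent.Results.MP_5a4862_nt.FewBeyondFour

/-- The Riemann xi function `s (s - 1) π^(-s/2) Γ(s/2) ζ(s) / 2`, as an entire function. -/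
noncomputable def xi (s : ℂ) : ℂ := s * (s - 1) / 2 * completedRiemannZeta₀ s + 1 / 2

/-- At most `B` zeros of `ξ^(n)` with `|Im s| ≤ T`, counted with multiplicity, are off the critical line or
multiple. -/
def Exc (n : ℕ) (T B : ℝ) : Prop := ∀ S : Finset ℂ,
  (∀ s ∈ S, |s.im| ≤ T ∧ iteratedDeriv n xi s = 0 ∧ (s.re ≠ 1 / 2 ∨ iteratedDeriv (n + 1) xi s = 0)) →
  ∑ s ∈ S, (analyticOrderNatAt (iteratedDeriv n xi) s : ℝ) ≤ B

/-- At most `B` different zeros of `ξ^(n)` with `|Im s| ≤ T` are off the critical line. -/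
def Off (n : ℕ) (T B : ℝ) : Prop := ∀ S : Finset ℂ,
  (∀ s ∈ S, |s.im| ≤ T ∧ iteratedDeriv n xi s = 0 ∧ s.re ≠ 1 / 2) → (S.card : ℝ) ≤ B

/-- At most `B` zeros of zeta, counted with multiplicity, have `Re s ≥ σ` and `|Im s| ≤ T`. -/
def Zet (σ T B : ℝ) : Prop := ∀ S : Finset ℂ,
  (∀ s ∈ S, riemannZeta s = 0 ∧ σ ≤ s.re ∧ |s.im| ≤ T) →
  ∑ s ∈ S, (analyticOrderNatAt riemannZeta s : ℝ) ≤ B

/-- At most `B` different zeros of zeta have `Re s ≥ σ` and `|Im s| ≤ T`. -/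
def ZetD (σ T B : ℝ) : Prop := ∀ S : Finset ℂ,
  (∀ s ∈ S, riemannZeta s = 0 ∧ σ ≤ s.re ∧ |s.im| ≤ T) → (S.card : ℝ) ≤ B

open Pool.Agent.H24R2.JP (XX)
open Pool.Agent.H24R2.DZ (bad)
open Pool.Agent.U762.DX

theorem iter (n : ℕ) (s : ℂ) : iteratedDeriv n xi s = (1 / 8) * iteratedDeriv n XX (s - 1 / 2) :=
  Pool.Agent.H986R2.K4.XiAux.iter n s

theorem iter_zero (n : ℕ) (s : ℂ) : iteratedDeriv n xi s = 0 ↔ iteratedDeriv n XX (s - 1 / 2) = 0 :=
  Pool.Agent.H986R2.K4.XiAux.zero_iff n s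

theorem ord_xi (n : ℕ) (s : ℂ) : analyticOrderNatAt (iteratedDeriv n xi) s =
    analyticOrderNatAt (iteratedDeriv n XX) (s - 1 / 2) := by
  have h := ord_aff (f := iteratedDeriv n XX) (g := iteratedDeriv n xi)
    (Pool.Agent.W125.SD.iter_diff n) (c := 1 / 8) (a := 1) (b := -(1 / 2)) (by norm_num) one_ne_zero
    (fun z => by rw [iter, one_mul, sub_eq_add_neg]) s
  rw [one_mul, ← sub_eq_add_neg] at h
  exact h

theorem sub_half_inj (a b : ℂ) (h : a - 1 / 2 = b - 1 / 2) : a = b := by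
  linear_combination h

theorem exc_of {n : ℕ} {T B : ℝ} (h : ∀ S : Finset ℂ, (∀ s ∈ S, bad n s ∧ |s.im| ≤ T) →
    ∑ s ∈ S, (analyticOrderNatAt (iteratedDeriv n XX) s : ℝ) ≤ B) : Exc n T B := by
  classical
  intro S hS
  have h1 := h (S.image fun s => s - 1 / 2) (fun s hs => by
    rw [Finset.mem_image] at hs
    obtain ⟨v, hv, rfl⟩ := hs
    obtain ⟨a1, a2, a3⟩ := hS v hv
    refine ⟨⟨(iter_zero n v).1 a2, ?_⟩, by simpa using a1⟩
    rcases a3 with a3 | a3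
    · left
      intro h0
      apply a3
      have : (v - 1 / 2).re = v.re - 1 / 2 := by simp
      rw [this] at h0
      linarith
    · right
      exact (iter_zero (n + 1) v).1 a3)
  rw [Finset.sum_image (fun a _ b _ hab => sub_half_inj a b hab)] at h1
  simp only [ord_xi]
  exact h1

theorem off_of_exc {n : ℕ} {T B : ℝ} (h : Exc n T B) : Off n T B := by
  intro S hS
  refine le_trans ?_ (h S fun s hs => ⟨(hS s hs).1, (hS s hs).2.1, Or.inl (hS s hs).2.2⟩)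
  rw [Finset.card_eq_sum_ones]
  push_cast
  refine Finset.sum_le_sum fun s hs => ?_
  rw [ord_xi]
  exact_mod_cast ord_pos n (s - 1 / 2) ((iter_zero n s).1 (hS s hs).2.1)

theorem zet_pos {s : ℂ} (h : riemannZeta s = 0) : 1 ≤ analyticOrderNatAt riemannZeta s := by
  rw [← mu_zeta (zero_ne_one h)]
  exact H353.mu_pos s (FF_zero h)

theorem zetD_of {σ T B : ℝ} (h : Zet σ T B) : ZetD σ T B := by
  intro S hS
  refine le_trans ?_ (h S hS)
  rw [Finset.card_eq_sum_ones]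
  push_cast
  exact Finset.sum_le_sum fun s hs => by exact_mod_cast zet_pos (hS s hs).1

theorem zet_mono {σ σ' T B : ℝ} (hσ : σ ≤ σ') (h : Zet σ T B) : Zet σ' T B :=
  fun S hS => h S fun s hs => ⟨(hS s hs).1, hσ.trans (hS s hs).2.1, (hS s hs).2.2⟩

/-- from zeta to the derivatives -/
theorem fwd (σ κ : ℝ) (h1 : 1 / 2 ≤ σ) (h2 : σ < 1) (hκ : 0 < κ) (h3 : κ * (σ - 1 / 2) < 2) :
    ∃ C : ℝ, 0 < C ∧ ∀ᶠ n : ℕ in atTop, ∀ B : ℝ, ZetD σ (2 * Real.exp (κ * n)) B →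
      Exc n (Real.exp (κ * n)) (C * n ^ 2 * B) := by
  obtain ⟨C, N, hC, h⟩ := cnt_all (σ - 1 / 2) κ (by linarith) (by linarith) h3 hκ
  refine ⟨C, hC, ?_⟩
  filter_upwards [eventually_ge_atTop N] with n hn B hB
  refine exc_of (h n hn B fun Z hZ => hB Z fun ρ hρ => ?_)
  obtain ⟨a1, a2, a3⟩ := hZ ρ hρ
  exact ⟨zeta_of_FF a1, by linarith, a3⟩

/-- from the derivatives to zeta -/
theorem bwd (κ : ℝ) (hκ : 4 < κ) : ∃ σ : ℝ, 1 / 2 ≤ σ ∧ σ < 1 ∧ ∀ f : ℕ → ℝ, Monotone f →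
    (∀ n, 0 ≤ f n) → (∀ᶠ n : ℕ in atTop, Off n (Real.exp (κ * n)) (f n)) →
    ∃ C : ℝ, 0 ≤ C ∧ ∀ T : ℝ, 1 ≤ T →
      Zet σ T (C * (1 + (1 + Real.log T) ^ 2 * f ⌊Real.log T / 4⌋₊)) := by
  classical
  obtain ⟨σ, h1, h2, h⟩ := ncv κ hκ
  refine ⟨(σ + 1) / 2, by linarith, by linarith, fun f hf hf0 hoff => ?_⟩
  obtain ⟨N, hN⟩ := eventually_atTop.1 hoff
  obtain ⟨C, hC, hZ⟩ := h f hf hf0 ⟨N, fun n hn S hS => by
    have h3 := hN n hn (S.image fun w => w + 1 / 2) (fun s hs => by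
      rw [Finset.mem_image] at hs
      obtain ⟨w, hw, rfl⟩ := hs
      obtain ⟨a1, a2, a3, a4⟩ := hS w hw
      refine ⟨?_, ?_, ?_⟩
      · have : (w + 1 / 2 : ℂ).im = w.im := by simp
        rw [this, abs_of_pos a3]
        exact a4
      · rw [iter_zero, add_sub_cancel_right]
        exact a1
      · have : (w + 1 / 2 : ℂ).re = w.re + 1 / 2 := by simp
        rw [this]
        intro h0
        apply a2
        linarith)
    rwa [Finset.card_image_of_injective _ (add_left_injective (1 / 2 : ℂ))] at h3⟩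
  refine ⟨2 * C, by linarith, fun T hT S hS => ?_⟩
  refine (zet_all h1 (hZ T hT) S fun s hs => ?_).trans (le_of_eq (by ring))
  obtain ⟨a1, a2, a3⟩ := hS s hs
  exact ⟨a1, by linarith, a3⟩

/-- the unconditional bound -/
theorem uncond (κ ε : ℝ) (hκ : 4 ≤ κ) (hε : 0 < ε) :
    ∀ᶠ n : ℕ in atTop, Exc n (Real.exp (κ * n)) (Real.exp ((κ - 16 / κ + ε) * n)) := by
  have hκ0 : 0 < κ := by linarith
  have hq : 2 / κ ≤ 1 / 2 := by
    rw [div_le_div_iff₀ hκ0 (by norm_num)]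
    linarith
  have hq0 : 0 < 2 / κ := by positivity
  obtain ⟨η, hη⟩ : ∃ η : ℝ, η = min (1 / κ) (ε / 64) := ⟨_, rfl⟩
  have hη0 : 0 < η := by rw [hη]; exact lt_min (by positivity) (by positivity)
  have hη1 : η ≤ 1 / κ := by rw [hη]; exact min_le_left _ _
  have hη2 : η ≤ ε / 64 := by rw [hη]; exact min_le_right _ _
  have h21 : 2 / κ = 2 * (1 / κ) := by ring
  obtain ⟨y, hy⟩ : ∃ y : ℝ, y = 2 / κ - η := ⟨_, rfl⟩
  have hy0 : 0 < y := by
    have : 0 < 1 / κ := by positivity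
    rw [hy, h21]; linarith
  have hy1 : y < 1 / 2 := by rw [hy]; linarith
  have hκy : κ * y < 2 := by
    have : κ * (2 / κ) = 2 := by field_simp
    rw [hy, mul_sub, this]
    have := mul_pos hκ0 hη0
    linarith
  have hdens := Pool.Agent.W190.carlson (1 / 2 + y) (ε / (4 * κ)) (by linarith) (by linarith)
    (by positivity)
  obtain ⟨CD, hCD, hD⟩ := hdens
  obtain ⟨α, hα⟩ : ∃ α : ℝ, α = 4 * (1 / 2 + y) * (1 - (1 / 2 + y)) + ε / (4 * κ) := ⟨_, rfl⟩
  rw [← hα] at hD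
  have hα0 : 0 ≤ α := by
    have : 0 < ε / (4 * κ) := by positivity
    rw [hα]
    nlinarith
  have hακ : κ * α < κ - 16 / κ + ε := by
    have e1 : κ * α = κ - 4 * (κ * y) * y + ε / 4 := by
      rw [hα]
      field_simp
      ring
    have e2 : κ * y = 2 - κ * η := by
      rw [hy]
      field_simp
    have e3 : 16 / κ = 8 * (2 / κ) := by ring
    rw [e1, e2, e3, hy]
    have e4 : κ * η * (2 / κ) = 2 * η := by field_simp
    have e5 : 0 ≤ κ * η * η := by positivity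
    nlinarith
  obtain ⟨C, hC, h⟩ := fwd (1 / 2 + y) κ (by linarith) (by linarith) hκ0 (by
    have : 1 / 2 + y - 1 / 2 = y := by ring
    rw [this]; exact hκy)
  filter_upwards [h, beat (C * (CD * 2 ^ α)) (κ * α) (κ - 16 / κ + ε) 2 hακ] with n hn hb
  have hE : 1 ≤ Real.exp (κ * n) := Real.one_le_exp (by positivity)
  have hZ : ZetD (1 / 2 + y) (2 * Real.exp (κ * n)) (CD * (2 * Real.exp (κ * n)) ^ α) := by
    intro S hS
    refine le_trans ?_ (hD (2 * Real.exp (κ * n)) (by linarith) S fun ρ hρ =>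
      ⟨FF_zero (hS ρ hρ).1, (hS ρ hρ).2.1, (hS ρ hρ).2.2⟩)
    rw [Finset.card_eq_sum_ones]
    push_cast
    exact Finset.sum_le_sum fun ρ hρ => by
      exact_mod_cast H353.mu_pos ρ (FF_zero (hS ρ hρ).1)
  intro S hS
  refine (hn _ hZ S hS).trans (le_trans (le_of_eq ?_) hb)
  rw [Real.mul_rpow (by norm_num) (by linarith), ← Real.exp_mul]
  have : κ * n * α = κ * α * n := by ring
  rw [this]
  ring

/-- a larger constant -/
theorem room (σ : ℝ) (h1 : 3 / 4 ≤ σ) (h2 : σ < 1) : ∃ κ : ℝ, 4 < κ ∧ κ * (σ - 1 / 2) < 2 := by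
  have h4 : 0 < σ - 1 / 2 := by linarith
  have h5 : 4 < 2 / (σ - 1 / 2) := by
    rw [lt_div_iff₀ h4]; linarith
  refine ⟨(4 + 2 / (σ - 1 / 2)) / 2, by linarith, ?_⟩
  have h8 : (2 / (σ - 1 / 2)) * (σ - 1 / 2) = 2 := div_mul_cancel₀ _ h4.ne'
  nlinarith

/-- **The exceptional zeros of the derivatives of xi beyond `exp (4 n)`.** -/
theorem result :
    (∀ κ ε : ℝ, 4 ≤ κ → 0 < ε →
      ∀ᶠ n : ℕ in atTop, Exc n (Real.exp (κ * n)) (Real.exp ((κ - 16 / κ + ε) * n))) ∧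
    (∀ σ κ : ℝ, 1 / 2 ≤ σ → σ < 1 → 0 < κ → κ * (σ - 1 / 2) < 2 → ∃ C : ℝ, 0 < C ∧
      ∀ᶠ n : ℕ in atTop, ∀ B : ℝ, ZetD σ (2 * Real.exp (κ * n)) B →
        Exc n (Real.exp (κ * n)) (C * n ^ 2 * B)) ∧
    (∀ κ : ℝ, 4 < κ → ∃ σ : ℝ, 1 / 2 ≤ σ ∧ σ < 1 ∧ ∀ f : ℕ → ℝ, Monotone f → (∀ n, 0 ≤ f n) →
      (∀ᶠ n : ℕ in atTop, Off n (Real.exp (κ * n)) (f n)) →
      ∃ C : ℝ, 0 ≤ C ∧ ∀ T : ℝ, 1 ≤ T →
        Zet σ T (C * (1 + (1 + Real.log T) ^ 2 * f ⌊Real.log T / 4⌋₊))) ∧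
    List.TFAE [
      ∃ σ : ℝ, σ < 1 ∧ ∀ δ : ℝ, 0 < δ → ∃ C : ℝ, ∀ T : ℝ, 1 ≤ T → Zet σ T (C * T ^ δ),
      ∃ κ : ℝ, 4 < κ ∧ ∀ δ : ℝ, 0 < δ → ∀ᶠ n : ℕ in atTop, Exc n (Real.exp (κ * n)) (Real.exp (δ * n)),
      ∃ κ : ℝ, 4 < κ ∧ ∀ δ : ℝ, 0 < δ →
        ∀ᶠ n : ℕ in atTop, Off n (Real.exp (κ * n)) (Real.exp (δ * n))] ∧
    List.TFAE [
      ∃ σ : ℝ, σ < 1 ∧ ∃ (A : ℕ) (C : ℝ), ∀ T : ℝ, 1 ≤ T → Zet σ T (C * (1 + Real.log T) ^ A),
      ∃ κ : ℝ, 4 < κ ∧ ∃ A : ℕ, ∀ᶠ n : ℕ in atTop, Exc n (Real.exp (κ * n)) ((n : ℝ) ^ A),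
      ∃ κ : ℝ, 4 < κ ∧ ∃ A : ℕ, ∀ᶠ n : ℕ in atTop, Off n (Real.exp (κ * n)) ((n : ℝ) ^ A)] := by
  refine ⟨uncond, fwd, bwd, ?_, ?_⟩
  · tfae_have 1 → 2 := by
      rintro ⟨σ, hσ, h⟩
      obtain ⟨κ, hκ, hκσ⟩ := room (max σ (3 / 4)) (le_max_right _ _) (max_lt hσ (by norm_num))
      have h34 : 3 / 4 ≤ max σ (3 / 4) := le_max_right _ _
      obtain ⟨C, hC, hf⟩ := fwd (max σ (3 / 4)) κ (by linarith) (max_lt hσ (by norm_num)) (by linarith) hκσ
      refine ⟨κ, hκ, fun δ hδ => ?_⟩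
      have hκ0 : 0 < κ := by linarith
      obtain ⟨D, hD⟩ := h (δ / (2 * κ)) (by positivity)
      filter_upwards [hf, beat (C * (D * 2 ^ (δ / (2 * κ)))) (δ / 2) δ 2 (by linarith)] with n hn hb
      have hE : 1 ≤ Real.exp (κ * n) := Real.one_le_exp (by positivity)
      intro S hS
      refine (hn _ (zetD_of (zet_mono (le_max_left _ _) (hD (2 * Real.exp (κ * n)) (by linarith)))) S
        hS).trans (le_trans (le_of_eq ?_) hb)
      rw [Real.mul_rpow (by norm_num) (by linarith), ← Real.exp_mul]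
      have : κ * n * (δ / (2 * κ)) = δ / 2 * n := by field_simp
      rw [this]
      ring
    tfae_have 2 → 3 := by
      rintro ⟨κ, hκ, h⟩
      refine ⟨κ, hκ, fun δ hδ => ?_⟩
      filter_upwards [h δ hδ] with n hn using off_of_exc hn
    tfae_have 3 → 1 := by
      rintro ⟨κ, hκ, h⟩
      obtain ⟨σ, h1, h2, hb⟩ := bwd κ hκ
      refine ⟨σ, h2, fun δ hδ => ?_⟩
      obtain ⟨C, hC, hZ⟩ := hb (fun n => Real.exp (δ * n)) (fun a b hab => by
        have : (a : ℝ) ≤ b := by exact_mod_cast hab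
        exact Real.exp_le_exp.2 (by gcongr)) (fun n => (Real.exp_pos _).le) (h δ hδ)
      refine ⟨C * (1 + (1 + 4 / δ) ^ 2), fun T hT => ?_⟩
      intro S hS
      refine (hZ T hT S hS).trans ?_
      have hT0 : 0 < T := by linarith
      have hlog : 0 ≤ Real.log T := Real.log_nonneg hT
      have a1 : Real.exp (δ * ⌊Real.log T / 4⌋₊) ≤ T ^ (δ / 4) := by
        rw [Real.rpow_def_of_pos hT0]
        apply Real.exp_le_exp.2
        have := Nat.floor_le (a := Real.log T / 4) (by positivity)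
        calc δ * (⌊Real.log T / 4⌋₊ : ℝ) ≤ δ * (Real.log T / 4) := by gcongr
          _ = _ := by ring
      have a2 : 1 + Real.log T ≤ (1 + 4 / δ) * T ^ (δ / 4) := by
        have b1 := Real.log_le_rpow_div hT0.le (show 0 < δ / 4 by positivity)
        have b2 : 1 ≤ T ^ (δ / 4) := Real.one_le_rpow hT (by positivity)
        have b3 : T ^ (δ / 4) / (δ / 4) = 4 / δ * T ^ (δ / 4) := by field_simp
        rw [b3] at b1
        linarith
      have a3 : (1 + Real.log T) ^ 2 ≤ (1 + 4 / δ) ^ 2 * (T ^ (δ / 4)) ^ 2 := by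
        rw [← mul_pow]
        exact pow_le_pow_left₀ (by linarith) a2 2
      have a4 : (T ^ (δ / 4)) ^ 2 * T ^ (δ / 4) ≤ T ^ δ := by
        rw [← Real.rpow_natCast, ← Real.rpow_mul hT0.le, ← Real.rpow_add hT0]
        apply Real.rpow_le_rpow_of_exponent_le hT
        push_cast
        linarith
      have a5 : 1 ≤ T ^ δ := Real.one_le_rpow hT hδ.le
      have a6 : (1 + Real.log T) ^ 2 * Real.exp (δ * ⌊Real.log T / 4⌋₊) ≤ (1 + 4 / δ) ^ 2 * T ^ δ := by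
        calc (1 + Real.log T) ^ 2 * Real.exp (δ * ⌊Real.log T / 4⌋₊)
            ≤ ((1 + 4 / δ) ^ 2 * (T ^ (δ / 4)) ^ 2) * T ^ (δ / 4) := by gcongr
          _ = (1 + 4 / δ) ^ 2 * ((T ^ (δ / 4)) ^ 2 * T ^ (δ / 4)) := by ring
          _ ≤ _ := by gcongr
      calc C * (1 + (1 + Real.log T) ^ 2 * Real.exp (δ * ⌊Real.log T / 4⌋₊))
          ≤ C * (T ^ δ + (1 + 4 / δ) ^ 2 * T ^ δ) := by gcongr
        _ = _ := by ring
    tfae_finish
  · tfae_have 1 → 2 := by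
      rintro ⟨σ, hσ, A, D, h⟩
      obtain ⟨κ, hκ, hκσ⟩ := room (max σ (3 / 4)) (le_max_right _ _) (max_lt hσ (by norm_num))
      have h34 : 3 / 4 ≤ max σ (3 / 4) := le_max_right _ _
      obtain ⟨C, hC, hf⟩ := fwd (max σ (3 / 4)) κ (by linarith) (max_lt hσ (by norm_num)) (by linarith) hκσ
      refine ⟨κ, hκ, A + 3, ?_⟩
      have hκ0 : 0 < κ := by linarith
      filter_upwards [hf, eventually_ge_atTop ⌈C * (|D| * (2 + κ) ^ A)⌉₊, eventually_ge_atTop 1]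
        with n hn hn1 hn2
      have hn0 : (1 : ℝ) ≤ n := by exact_mod_cast hn2
      have hnC : C * (|D| * (2 + κ) ^ A) ≤ n := Nat.ceil_le.1 hn1
      have hE : 1 ≤ Real.exp (κ * n) := Real.one_le_exp (by positivity)
      intro S hS
      refine (hn _ (zetD_of (zet_mono (le_max_left _ _) (h (2 * Real.exp (κ * n)) (by linarith)))) S
        hS).trans ?_
      have a1 : 1 + Real.log (2 * Real.exp (κ * n)) ≤ (2 + κ) * n := by
        rw [Real.log_mul (by norm_num) (by positivity), Real.log_exp]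
        have := Real.log_two_lt_d9
        nlinarith
      have a0 : 0 ≤ 1 + Real.log (2 * Real.exp (κ * n)) := by
        have : 0 ≤ Real.log (2 * Real.exp (κ * n)) := Real.log_nonneg (by linarith)
        linarith
      have a2 : (1 + Real.log (2 * Real.exp (κ * n))) ^ A ≤ ((2 + κ) * n) ^ A :=
        pow_le_pow_left₀ a0 a1 A
      calc C * n ^ 2 * (D * (1 + Real.log (2 * Real.exp (κ * n))) ^ A)
          ≤ C * n ^ 2 * (|D| * ((2 + κ) * n) ^ A) := by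
            have := le_abs_self D
            gcongr
        _ = (C * (|D| * (2 + κ) ^ A)) * ((n : ℝ) ^ A * n ^ 2) := by rw [mul_pow]; ring
        _ ≤ n * ((n : ℝ) ^ A * n ^ 2) := by gcongr
        _ = (n : ℝ) ^ (A + 3) := by ring
    tfae_have 2 → 3 := by
      rintro ⟨κ, hκ, A, h⟩
      refine ⟨κ, hκ, A, ?_⟩
      filter_upwards [h] with n hn using off_of_exc hn
    tfae_have 3 → 1 := by
      rintro ⟨κ, hκ, A, h⟩
      obtain ⟨σ, h1, h2, hb⟩ := bwd κ hκ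
      obtain ⟨C, hC, hZ⟩ := hb (fun n => (n : ℝ) ^ A) (fun a b hab => by
        have : (a : ℝ) ≤ b := by exact_mod_cast hab
        exact pow_le_pow_left₀ (Nat.cast_nonneg _) this A) (fun n => by positivity) h
      refine ⟨σ, h2, A + 2, 2 * C, fun T hT => ?_⟩
      intro S hS
      refine (hZ T hT S hS).trans ?_
      have hlog : 0 ≤ Real.log T := Real.log_nonneg hT
      have a1 : (⌊Real.log T / 4⌋₊ : ℝ) ≤ 1 + Real.log T := by
        have := Nat.floor_le (a := Real.log T / 4) (by positivity)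
        linarith
      have a2 : (⌊Real.log T / 4⌋₊ : ℝ) ^ A ≤ (1 + Real.log T) ^ A :=
        pow_le_pow_left₀ (Nat.cast_nonneg _) a1 A
      have a3 : 1 ≤ (1 + Real.log T) ^ (A + 2) := one_le_pow₀ (by linarith)
      calc C * (1 + (1 + Real.log T) ^ 2 * (⌊Real.log T / 4⌋₊ : ℝ) ^ A)
          ≤ C * ((1 + Real.log T) ^ (A + 2) + (1 + Real.log T) ^ 2 * (1 + Real.log T) ^ A) := by gcongr
        _ = _ := by ring
    tfae_finish

end Pool.Agent.Results.MP_5a4862_nt.FewBeyondFour
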