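import Pool.Agent.U156.LZ.Fin
import Pool.Agent.U156.LD.Rate

/-!
# Growth and signs of the Li coefficients of zeta

For a base point `a ≥ 1` let `λ_n(a) = ∑_ρ Re (1 - ((ρ - a) / (ρ + a - 1)) ^ n)`, the sum over the zeros of zeta
in the open critical strip with multiplicity (for `a = 1` these are the Li coefficients). We show:

* the positive `λ_n(a)` have positive lower Banach density, unconditionally;
* a zero off the line makes both signs occur with positive lower Banach density and exponential size;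
* zeta has no zeros with `Re s > (1 + κ) / 2` if and only if, for every `κ' > κ`, for arbitrarily large `a`,
  `λ_n(a) ≥ -exp (κ' n / a)` on arbitrarily long blocks of consecutive `n` arbitrarily far out; this is
  unconditional for `κ = 1`, and any improvement is equivalent to a zero-free half-plane `Re s > θ`, `θ < 1`;
* for every fixed `a ≥ 1` the Riemann hypothesis is equivalent to `λ_n(a) ≥ 0` on arbitrarily long blocks
  arbitrarily far out.
-/

set_option autoImplicit false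

open Filter

namespace Pool.Agent.Results.MP_5a4862_nt.LiGrowth

/-- The zeros of zeta in the open critical strip. -/
def Zero : Type := {ρ : ℂ // riemannZeta ρ = 0 ∧ 0 < ρ.re ∧ ρ.re < 1}

/-- The term of the zero `ρ`, weighted by the multiplicity of the zero. -/
noncomputable def term (a : ℝ) (n : ℕ) (ρ : Zero) : ℝ :=
  (analyticOrderNatAt riemannZeta ρ.1 : ℝ) * (1 - ((ρ.1 - a) / (ρ.1 + a - 1)) ^ n).re

/-- The Li coefficient of zeta with base point `a`. -/
noncomputable def li (a : ℝ) (n : ℕ) : ℝ := ∑' ρ : Zero, term a n ρ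

/-- The numbers `k` with `P k` have positive lower Banach density: there is `c > 0` such that among any `L ≥ L₀`
consecutive numbers beyond `n₀` there are at least `c L` of them. -/
def Dense (P : ℕ → Prop) : Prop :=
  ∃ c : ℝ, 0 < c ∧ ∃ n₀ L₀ : ℕ, ∀ n L : ℕ, n₀ ≤ n → L₀ ≤ L →
    c * L ≤ ({k : ℕ | n < k ∧ k ≤ n + L ∧ P k}.ncard : ℝ)

/-- `P` holds on arbitrarily long blocks of consecutive numbers, arbitrarily far out. -/
def Blocks (P : ℕ → Prop) : Prop := ∀ L n₀ : ℕ, ∃ n : ℕ, n₀ ≤ n ∧ ∀ k, n < k → k ≤ n + L → P k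

/-- There are no zeros of zeta with `Re s > θ`. -/
def ZeroFree (θ : ℝ) : Prop := ∀ s : ℂ, θ < s.re → riemannZeta s ≠ 0

/-- For arbitrarily large base points `a`, `λ_n(a) ≥ -exp (κ n / a)` on arbitrarily long blocks, arbitrarily
far out. -/
def LowerOnBlocks (κ : ℝ) : Prop := ∃ᶠ a : ℝ in atTop, Blocks fun n => -Real.exp (κ * n / a) ≤ li a n

/-- For all large base points `a`, `|λ_n(a)| ≤ exp (κ n / a)` for all large `n`. -/
def Small (κ : ℝ) : Prop := ∀ᶠ a : ℝ in atTop, ∀ᶠ n : ℕ in atTop, |li a n| ≤ Real.exp (κ * n / a)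

open Pool.Agent.U156.LZ Pool.Agent.U156

lemma li_eq (a : ℝ) (n : ℕ) : li a n = Pool.Agent.N831.LI.li Mz (a - 1 / 2) n := by
  have h := tsum_zeros (fun ρ : ℂ => (1 - ((ρ - a) / (ρ + a - 1)) ^ n).re)
  unfold li term Zero Pool.Agent.N831.LI.li
  rw [h]
  refine tsum_congr fun z => ?_
  rw [term_eq]

lemma li_summable {a : ℝ} (ha : 1 ≤ a) (n : ℕ) : Summable (term a n) := by
  refine summable_zeros (fun ρ : ℂ => (1 - ((ρ - a) / (ρ + a - 1)) ^ n).re) ?_
  refine (LD.summ' zsz (b := a - 1 / 2) (by linarith) n).congr fun z => ?_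
  rw [term_eq]

lemma dense_of {P : ℕ → Prop} (h : LD.Dense P) : Dense P := h

lemma blocks_of {P : ℕ → Prop} (h : LD.Blocks P) : Blocks P := h

lemma of_blocks {P : ℕ → Prop} (h : Blocks P) : LD.Blocks P := h

lemma strip_zero {θ : ℝ} (h : ZeroFree θ) (z : ℂ) (hz : Mz z ≠ 0) : |z.re| ≤ θ - 1 / 2 := by
  have key : ∀ w : ℂ, Mz w ≠ 0 → w.re ≤ θ - 1 / 2 := by
    intro w hw
    by_contra h1
    push Not at h1
    refine h (1 / 2 + w) ?_ (Mz_zero hw)
    rw [half_re]
    linarith
  rw [abs_le]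
  refine ⟨?_, key z hz⟩
  have := key (-z) (by rwa [Mz_neg])
  rw [Complex.neg_re] at this
  linarith

lemma zero_strip {δ : ℝ} (h : ∀ z, Mz z ≠ 0 → |z.re| ≤ δ) : ZeroFree (1 / 2 + max δ 0) := by
  intro s hs h0
  have h1 : s.re < 1 := by
    by_contra h
    exact riemannZeta_ne_zero_of_one_le_re (not_lt.1 h) h0
  have h5 := le_max_left δ 0
  have h6 := le_max_right δ 0
  have e1 : (s - 1 / 2 : ℂ).re = s.re - 1 / 2 := by simp
  have h2 : Mz (s - 1 / 2) ≠ 0 := by
    rw [Mz_ne_iff]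
    have e : (1 / 2 + (s - 1 / 2) : ℂ) = s := by ring
    rw [e, e1, abs_lt]
    exact ⟨⟨by linarith, by linarith⟩, h0⟩
  have h3 := h _ h2
  rw [e1] at h3
  have h4 := le_abs_self (s.re - 1 / 2)
  linarith

lemma re_zero (h : RiemannHypothesis) (z : ℂ) (hz : Mz z ≠ 0) : z.re = 0 := by
  have h1 := h (1 / 2 + z) (Mz_zero hz) (by
    rintro ⟨m, hm⟩
    have h2 := congrArg Complex.re hm
    rw [half_re] at h2
    have h3 := (abs_lt.1 (Mz_ne hz).1).1
    simp at h2
    have : (0:ℝ) ≤ m := Nat.cast_nonneg m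
    linarith) (ne_one_of (by
      rw [half_re]
      have := (abs_lt.1 (Mz_ne hz).1).2
      linarith))
  rw [half_re] at h1
  linarith

lemma rate (κ : ℝ) (hκ0 : 0 ≤ κ) (hκ1 : κ ≤ 1) :
    (ZeroFree ((1 + κ) / 2) → ∀ κ' : ℝ, κ < κ' → Small κ') ∧
    ((∀ κ' : ℝ, κ < κ' → LowerOnBlocks κ') → ZeroFree ((1 + κ) / 2)) := by
  constructor
  · intro h κ' hκ'
    have h1 := LD.rate_up zsz (δ := κ / 2) (δ' := κ' / 2) (1 / 2) (by linarith) (by linarith) (by linarith) fun z hz => by
      have := strip_zero h z hz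
      linarith
    filter_upwards [h1] with a ha
    filter_upwards [ha] with n hn
    rw [li_eq]
    refine hn.trans (le_of_eq ?_)
    congr 1
    ring
  · intro h s hs h0
    obtain ⟨κ', h1, h2⟩ := exists_between (show κ < 2 * s.re - 1 by linarith)
    have h3 := LD.rate_low zsz (δ := κ' / 2) (1 / 2) (by linarith) (by
      refine (h κ' h1).mono fun a ha => ?_
      have e : (fun n : ℕ => -Real.exp (2 * (κ' / 2) * n / a) ≤ Pool.Agent.N831.LI.li Mz (a - 1 / 2) n) =
          fun n : ℕ => -Real.exp (κ' * n / a) ≤ li a n := by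
        funext n
        rw [← li_eq]
        congr 3
        ring
      rw [e]
      exact of_blocks ha)
    refine zero_strip h3 s ?_ h0
    have : max (κ' / 2) 0 = κ' / 2 := max_eq_left (by linarith)
    rw [this]
    linarith

lemma small_lower {κ : ℝ} (h : Small κ) : LowerOnBlocks κ := by
  refine Eventually.frequently ?_
  filter_upwards [h] with a ha
  refine blocks_of (LD.Blocks.of_eventually ?_)
  filter_upwards [ha] with n hn
  exact (abs_le.1 hn).1

lemma lower_zero {κ : ℝ} (h0 : 0 ≤ κ) (h : LowerOnBlocks κ) : ZeroFree ((1 + κ) / 2) := by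
  have h3 := LD.rate_low zsz (δ := κ / 2) (1 / 2) (by linarith) (by
      refine h.mono fun a ha => ?_
      have e : (fun n : ℕ => -Real.exp (2 * (κ / 2) * n / a) ≤ Pool.Agent.N831.LI.li Mz (a - 1 / 2) n) =
          fun n : ℕ => -Real.exp (κ * n / a) ≤ li a n := by
        funext n
        rw [← li_eq]
        congr 3
        ring
      rw [e]
      exact of_blocks ha)
  have h4 := zero_strip h3
  have : max (κ / 2) 0 = κ / 2 := max_eq_left (by linarith)
  rw [this] at h4
  have e : 1 / 2 + κ / 2 = (1 + κ) / 2 := by ring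
  rwa [e] at h4

lemma zeroFree_one : ZeroFree 1 := fun _ hs => riemannZeta_ne_zero_of_one_le_re hs.le

/-- **Growth and signs of the Li coefficients of zeta.** -/
theorem result :
    (∀ (a : ℝ) (n : ℕ), 1 ≤ a → Summable (term a n)) ∧
    -- positive coefficients have positive lower Banach density
    (∀ a : ℝ, 1 ≤ a → Dense fun n => 0 < li a n) ∧
    -- a zero off the line
    (∀ (a : ℝ) (s : ℂ), 1 ≤ a → riemannZeta s = 0 → 1 / 2 < s.re →
      1 < ‖(s + a - 1) / (s - a)‖ ∧ ∃ c : ℝ, 0 < c ∧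
        (Dense fun n => c * ‖(s + a - 1) / (s - a)‖ ^ n ≤ li a n) ∧
        Dense fun n => li a n ≤ -(c * ‖(s + a - 1) / (s - a)‖ ^ n)) ∧
    -- the Riemann hypothesis
    (∀ a : ℝ, 1 ≤ a → (RiemannHypothesis ↔ Blocks fun n => 0 ≤ li a n)) ∧
    -- the known range, and the criterion for zero-free half-planes
    (∀ κ : ℝ, 1 < κ → Small κ) ∧
    (∀ κ : ℝ, 0 ≤ κ → κ < 1 →
      List.TFAE [ZeroFree ((1 + κ) / 2), ∀ κ' : ℝ, κ < κ' → Small κ', ∀ κ' : ℝ, κ < κ' → LowerOnBlocks κ']) ∧
    List.TFAE [∃ θ : ℝ, θ < 1 ∧ ZeroFree θ, ∃ κ : ℝ, κ < 1 ∧ Small κ, ∃ κ : ℝ, κ < 1 ∧ LowerOnBlocks κ] := by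
  refine ⟨fun a n ha => li_summable ha n, fun a ha => ?_, fun a s ha hs hre => ?_, fun a ha => ⟨fun h => ?_, fun h => ?_⟩,
    fun κ hκ => ?_, fun κ h0 h1 => ?_, ?_⟩
  · have := LD.pos_low zsz (b := a - 1 / 2) (by linarith)
    simp only [← li_eq] at this
    exact this
  · have h1 : s.re < 1 := by
      by_contra h
      exact riemannZeta_ne_zero_of_one_le_re (not_lt.1 h) hs
    have hb : (1 : ℝ) / 2 ≤ a - 1 / 2 := by linarith
    have e1 : (s - 1 / 2 : ℂ).re = s.re - 1 / 2 := by simp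
    have h2 : Mz (s - 1 / 2) ≠ 0 := by
      rw [Mz_ne_iff]
      have e : (1 / 2 + (s - 1 / 2) : ℂ) = s := by ring
      rw [e, e1, abs_lt]
      exact ⟨⟨by linarith, by linarith⟩, hs⟩
    have h3 : Mz (-(s - 1 / 2)) ≠ 0 := by rwa [Mz_neg]
    have h4 : (-(s - 1 / 2) : ℂ).re < 0 := by
      rw [Complex.neg_re, e1]
      linarith
    have e : ‖Pool.Agent.N831.LI.W (a - 1 / 2) (-(s - 1 / 2))‖ = ‖(s + a - 1) / (s - a)‖ := by
      unfold Pool.Agent.N831.LI.W
      rw [norm_div, norm_div, ← norm_neg (-(s - 1 / 2) - ((a - 1 / 2 : ℝ) : ℂ)),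
        ← norm_neg (-(s - 1 / 2) + ((a - 1 / 2 : ℝ) : ℂ))]
      congr 2
      · push_cast; ring
      · push_cast; ring
    have h5 := LD.one_lt_W hb (zsz.strip _ h3) h4
    obtain ⟨c, hc, h6, h7⟩ := LD.grow zsz hb h3 h4
    rw [e] at h5
    simp only [e, ← li_eq] at h6 h7
    exact ⟨h5, c, hc, h6, h7⟩
  · refine blocks_of (LD.Blocks.of_eventually ?_)
    filter_upwards [eventually_ge_atTop 1] with n hn
    rw [li_eq]
    exact (LD.on_line zsz (by linarith) (re_zero h) hn).le
  · refine RH_of fun s hs _ h0 => ?_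
    have h1 : s.re < 1 := by
      by_contra h
      exact riemannZeta_ne_zero_of_one_le_re (not_lt.1 h) h0
    have e1 : (s - 1 / 2 : ℂ).re = s.re - 1 / 2 := by simp
    have h2 : Mz (s - 1 / 2) ≠ 0 := by
      rw [Mz_ne_iff]
      have e : (1 / 2 + (s - 1 / 2) : ℂ) = s := by ring
      rw [e, e1, abs_lt]
      exact ⟨⟨by linarith, by linarith⟩, h0⟩
    have h3 := (LD.off_line zsz (b := a - 1 / 2) (by linarith) h2 (by rw [e1]; linarith)).2
    simp only [← li_eq] at h3
    refine (of_blocks h).not_dense (Eventually.of_forall fun n hn => ?_) h3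
    exact not_lt.2 hn
  · have h1 := (rate 1 zero_le_one le_rfl).1 (by
      have e : ((1 : ℝ) + 1) / 2 = 1 := by norm_num
      rw [e]
      exact zeroFree_one)
    exact h1 κ hκ
  · obtain ⟨r1, r2⟩ := rate κ h0 h1.le
    tfae_have 1 → 2 := r1
    tfae_have 2 → 3 := fun h κ' hκ' => small_lower (h κ' hκ')
    tfae_have 3 → 1 := r2
    tfae_finish
  · tfae_have 1 → 2 := by
      rintro ⟨θ, h1, h2⟩
      have h3 : max θ (1 / 2) < 1 := max_lt h1 (by norm_num)
      have h4 := le_max_right θ (1 / 2)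
      have h5 := le_max_left θ (1 / 2)
      obtain ⟨κ', h6, h7⟩ := exists_between (show 2 * max θ (1 / 2) - 1 < 1 by linarith)
      refine ⟨κ', h7, (rate (2 * max θ (1 / 2) - 1) (by linarith) (by linarith)).1 ?_ κ' h6⟩
      intro s hs
      exact h2 s (by linarith)
    tfae_have 2 → 3 := fun ⟨κ, h1, h2⟩ => ⟨κ, h1, small_lower h2⟩
    tfae_have 3 → 1 := by
      rintro ⟨κ, h1, h2⟩
      rcases le_or_gt 0 κ with h0 | h0
      · exact ⟨(1 + κ) / 2, by linarith, lower_zero h0 h2⟩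
      · refine ⟨(1 + 0) / 2, by norm_num, lower_zero le_rfl ?_⟩
        refine (h2.and_eventually (eventually_gt_atTop (0 : ℝ))).mono fun a ha L n0 => ?_
        obtain ⟨n, hn, h3⟩ := ha.1 L n0
        refine ⟨n, hn, fun k hk hkL => le_trans ?_ (h3 k hk hkL)⟩
        rw [neg_le_neg_iff, Real.exp_le_exp, zero_mul, zero_div]
        apply div_nonpos_of_nonpos_of_nonneg _ ha.2.le
        have : (0:ℝ) ≤ k := Nat.cast_nonneg k
        nlinarith
    tfae_finish

end Pool.Agent.Results.MP_5a4862_nt.LiGrowth
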