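import Mathlib
import Pool.Agent.U334.RN.Fin

/-!
# Zero-free half-planes and the number of failures of the inequalities of Robin and Nicolas

Robin's inequality is `σ(n) < e^γ n log log n`, Nicolas' inequality (for all integers) is
`n / φ(n) ≤ e^γ log log n`. Let `Θ ≥ 1/2` be the supremum of the real parts of the zeros of the zeta
function. The number of failures up to `x` of Nicolas' inequality has the exact order
`exp ((log x) ^ ((1 + Θ) / 2 + o(1)))` for suitable arbitrarily large `x` and is never larger; the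
same holds for Robin's inequality if `Θ > 1/2`. Hence the zero-free half-planes can be read off from
the number of failures.
-/

open Filter

namespace Pool.Agent.Results.MP_5a4862_nt.RobinNicolasCount

/-- The number of integers `3 ≤ n ≤ x` with `e^γ n log log n ≤ σ(n)`, where `σ(n)` is the sum of the
divisors of `n`: the failures of Robin's inequality. -/
noncomputable def robinFailures (x : ℝ) : ℕ :=
  {n : ℕ | 3 ≤ n ∧ (n : ℝ) ≤ x ∧ Real.exp Real.eulerMascheroniConstant * n *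
    Real.log (Real.log n) ≤ ∑ d ∈ n.divisors, (d : ℝ)}.ncard

/-- The number of integers `3 ≤ n ≤ x` with `e^γ (log log n) φ(n) < n`: the failures of Nicolas'
inequality. -/
noncomputable def nicolasFailures (x : ℝ) : ℕ :=
  {n : ℕ | 3 ≤ n ∧ (n : ℝ) ≤ x ∧ Real.exp Real.eulerMascheroniConstant *
    Real.log (Real.log n) * (Nat.totient n : ℝ) < n}.ncard

lemma card_eq (P : ℕ → Prop) [DecidablePred P] (x : ℝ) :
    {n : ℕ | 3 ≤ n ∧ (n : ℝ) ≤ x ∧ P n}.ncard =
      ((Finset.Icc 3 ⌊x⌋₊).filter fun n => P n).card := by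
  have h : {n : ℕ | 3 ≤ n ∧ (n : ℝ) ≤ x ∧ P n} =
      (((Finset.Icc 3 ⌊x⌋₊).filter fun n => P n : Finset ℕ) : Set ℕ) := by
    ext n
    simp only [Set.mem_ofPred_eq, Finset.coe_filter, Finset.mem_Icc]
    constructor
    · rintro ⟨h1, h2, h3⟩
      exact ⟨⟨h1, Nat.le_floor h2⟩, h3⟩
    · rintro ⟨⟨h1, h2⟩, h3⟩
      exact ⟨h1, (Nat.le_floor_iff' (by omega)).1 h2, h3⟩
  rw [h, Set.ncard_coe_finset]

lemma robin_eq (x : ℝ) : robinFailures x = Pool.Agent.U334.RN.VV x := by
  classical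
  exact card_eq Pool.Agent.U334.RN.Rob x

lemma nicolas_eq (x : ℝ) : nicolasFailures x = Pool.Agent.U334.RN.NN x := by
  classical
  exact card_eq Pool.Agent.U334.RN.Vio x

/-- The zeta function has a zero-free half-plane `Re s ≥ σ₀`, `1/2 < σ₀ < 1`, if and only if the
number of failures of Robin's inequality up to `x` is at most `exp ((log x)^(1-δ))` for some `δ > 0`
and all large `x`. More precisely, for `1/2 ≤ θ < 1` the zeta function has no zeros with real part
`> θ` if and only if the number of failures of Robin's inequality, equivalently of Nicolas'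
inequality, is at most `exp ((log x)^((1+θ)/2+ε))` for every `ε > 0` and all large `x`. The number of
failures of Nicolas' inequality is at least `exp ((log x)^(3/4-ε))` for arbitrarily large `x`. -/
theorem result :
    ((∃ σ₀ : ℝ, 1 / 2 < σ₀ ∧ σ₀ < 1 ∧ ∀ s : ℂ, σ₀ ≤ s.re → riemannZeta s ≠ 0) ↔
      ∃ δ : ℝ, 0 < δ ∧ ∀ᶠ x : ℝ in atTop,
        (robinFailures x : ℝ) ≤ Real.exp (Real.log x ^ (1 - δ))) ∧
    (∀ θ : ℝ, 1 / 2 ≤ θ → θ < 1 → List.TFAE [
      ∀ s : ℂ, θ < s.re → riemannZeta s ≠ 0,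
      ∀ ε : ℝ, 0 < ε → ∀ᶠ x : ℝ in atTop,
        (nicolasFailures x : ℝ) ≤ Real.exp (Real.log x ^ ((1 + θ) / 2 + ε)),
      ∀ ε : ℝ, 0 < ε → ∀ᶠ x : ℝ in atTop,
        (robinFailures x : ℝ) ≤ Real.exp (Real.log x ^ ((1 + θ) / 2 + ε))]) ∧
    ∀ ε : ℝ, 0 < ε → ∃ᶠ x : ℝ in atTop,
      Real.exp (Real.log x ^ (3 / 4 - ε)) ≤ (nicolasFailures x : ℝ) := by
  simp only [robin_eq, nicolas_eq]
  refine ⟨Pool.Agent.U334.RN.half_plane, fun θ h0 h1 => Pool.Agent.U334.RN.tfae h0 h1,
    fun ε hε => frequently_atTop.2 fun x₀ => ?_⟩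
  obtain ⟨x, hx, hx2⟩ := Pool.Agent.U334.RN.nicolas_lower hε x₀
  exact ⟨x, hx, hx2⟩

end Pool.Agent.Results.MP_5a4862_nt.RobinNicolasCount
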